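import Pool.Agent.H220M.Base4

/-!
Borel-Cantelli: almost sure cancellation for one polynomial and one weight.
-/

set_option autoImplicit false

namespace Pool.Agent.W337.LQ

open Finset MeasureTheory Filter Polynomial
open scoped ENNReal
open Pool.Agent.H220M

lemma unit_abs (u : ℤˣ) : |((u : ℤ) : ℝ)| = 1 := by
  rcases Int.units_eq_one_or u with h | h <;> rw [h] <;> simp

/-- the product over the primes -/
lemma prod_sq_le (y : ℕ) (S : Finset ℕ) (hS : ∀ q ∈ S, q ≤ y ∧ q.Prime) :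
    ∏ q ∈ S, q ^ 2 ≤ 2 ^ (4 * y) := by
  have h1 : ∏ q ∈ S, q ≤ primorial y := by
    unfold primorial
    apply Finset.prod_le_prod_of_subset_of_one_le'
    · intro q hq
      have := hS q hq
      simp only [Finset.mem_filter, Finset.mem_range]
      exact ⟨by omega, this.2⟩
    · intro q hq _
      simp only [Finset.mem_filter, Finset.mem_range] at hq
      exact hq.2.one_lt.le
  rw [Finset.prod_pow]
  calc (∏ q ∈ S, q) ^ 2 ≤ (4 ^ y) ^ 2 :=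
        Nat.pow_le_pow_left (h1.trans (primorial_le_four_pow y)) 2
    _ = 2 ^ (4 * y) := by
        rw [show (4 : ℕ) = 2 ^ 2 by norm_num, ← pow_mul, ← pow_mul]
        congr 1
        ring

lemma exp_bound (j : ℕ) (hj : 1 ≤ j) :
    Real.exp (-((2 * (Nat.log 2 j + 1) : ℕ) : ℝ)) ≤ 1 / (j : ℝ) ^ 2 := by
  have h1 : j < 2 ^ (Nat.log 2 j + 1) := Nat.lt_pow_succ_log_self (by norm_num) j
  have h2 : (j : ℝ) ≤ Real.exp ((Nat.log 2 j + 1 : ℕ) : ℝ) := by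
    calc (j : ℝ) ≤ (2 : ℝ) ^ (Nat.log 2 j + 1) := by exact_mod_cast h1.le
      _ ≤ (Real.exp 1) ^ (Nat.log 2 j + 1) := by
          apply pow_le_pow_left₀ (by norm_num)
          have := Real.add_one_le_exp (1 : ℝ)
          linarith
      _ = Real.exp ((Nat.log 2 j + 1 : ℕ) : ℝ) := by
          rw [← Real.exp_nat_mul]
          simp
  have hj0 : (0 : ℝ) < j := by exact_mod_cast hj
  have h3 : (j : ℝ) ^ 2 ≤ Real.exp ((2 * (Nat.log 2 j + 1) : ℕ) : ℝ) := by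
    calc (j : ℝ) ^ 2 ≤ (Real.exp ((Nat.log 2 j + 1 : ℕ) : ℝ)) ^ 2 :=
          pow_le_pow_left₀ hj0.le h2 2
      _ = Real.exp ((2 * (Nat.log 2 j + 1) : ℕ) : ℝ) := by
          rw [← Real.exp_nat_mul]
          congr 1
          push_cast
          ring
  rw [Real.exp_neg, ← one_div]
  exact one_div_le_one_div_of_le (by positivity) h3

/-- one scale -/
theorem K0 (hC0 : StmC0) (hM5 : StmM5) (hM6b : StmM6b) (g : ℕ → ℤˣ) (Q : Set ℕ)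
    (hQ : ∀ q ∈ Q, q.Prime) (F : ℤ[X]) (w : ℕ → ℝ) (hw : ∀ m, |w m| ≤ 1)
    (hT : Thick {q | q ∈ Q ∧ SimpleRoot F q}) (η : ℝ) (hη : 0 < η) :
    ∃ j₀ : ℕ, 1 ≤ j₀ ∧ ∀ j ≥ j₀, ∀ r : ℕ, 1 ≤ r →
      coins {ω | η * ((2 ^ j * r : ℕ) : ℝ) < |∑ m ∈ range (2 ^ j * r), w m *
        (((modif g Q ω ((F.eval ((m : ℤ) + 1)).natAbs) : ℤˣ) : ℤ) : ℝ)|} ≤
        ENNReal.ofReal (1 / (j : ℝ) ^ 2) := by
  classical
  obtain ⟨_, hC0⟩ := hC0
  obtain ⟨d, hd⟩ : ∃ d, d = F.natDegree := ⟨_, rfl⟩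
  unfold Thick at hT
  have hT2 := hT.eventually_ge_atTop (4 * Real.log (2 / η) + 2)
  obtain ⟨y₀, hy₀⟩ := eventually_atTop.1 hT2
  obtain ⟨P, hP⟩ : ∃ P : ℕ, P = 2 ^ (8 * d + 20) := ⟨_, rfl⟩
  refine ⟨4 * y₀ + P + 1, by omega, ?_⟩
  intro j hj r hr
  obtain ⟨y, hy⟩ : ∃ y, y = j / 4 := ⟨_, rfl⟩
  have hyy : y₀ ≤ y := by omega
  obtain ⟨L, hL⟩ : ∃ L, L = Nat.log 2 j := ⟨_, rfl⟩
  have hL0 : 8 * d + 20 ≤ L := by
    rw [hL]
    apply Nat.le_log_of_pow_le (by norm_num)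
    rw [← hP]
    omega
  have hLy : Nat.log 2 y = L - 2 := by
    rw [hy, hL, show (4 : ℕ) = 2 * 2 by norm_num, ← Nat.div_div_eq_div_mul, Nat.log_div_base,
      Nat.log_div_base]
    omega
  have hT3 := hy₀ y hyy
  obtain ⟨Q₀, hQ₀⟩ : ∃ Q₀ : Finset ℕ, Q₀ = (Icc 1 y).filter
    (fun q => q ∈ {q | q ∈ Q ∧ SimpleRoot F q} ∧ (Nat.log 2 y) ^ 2 < q) := ⟨_, rfl⟩
  have hT4 : 4 * Real.log (2 / η) + 2 ≤ ∑ q ∈ Q₀, (1 : ℝ) / q := by
    refine hT3.trans (le_of_eq ?_)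
    rw [hQ₀]
    refine Finset.sum_congr ?_ (fun _ _ => rfl)
    ext q
    simp only [Finset.mem_filter]
  have hmem : ∀ q ∈ Q₀, (q ≤ y) ∧ q ∈ Q ∧ SimpleRoot F q ∧ (Nat.log 2 y) ^ 2 < q := by
    intro q hq
    rw [hQ₀, Finset.mem_filter, Finset.mem_Icc] at hq
    exact ⟨hq.1.2, hq.2.1.1, hq.2.1.2, hq.2.2⟩
  obtain ⟨s, hs⟩ : ∃ s, s = 2 * (L + 1) := ⟨_, rfl⟩
  have hsd : 4 * s * d ≤ (Nat.log 2 y) ^ 2 := by
    rw [hLy, hs]
    obtain ⟨t, ht⟩ : ∃ t, L = 8 * d + 20 + t := ⟨L - (8 * d + 20), by omega⟩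
    have e : L - 2 = 8 * d + 18 + t := by omega
    rw [e, ht]
    have e2 : (8 * d + 18 + t) ^ 2 = 4 * (2 * (8 * d + 20 + t + 1)) * d +
        (t * t + 324 + 120 * d + 8 * (d * t) + 36 * t) := by ring
    rw [e2]
    exact Nat.le_add_right _ _
  have hprod : (∏ q ∈ Q₀, q ^ 2) ≤ 2 ^ j * r := by
    refine (prod_sq_le y Q₀ (fun q hq => ⟨(hmem q hq).1, hQ q (hmem q hq).2.1⟩)).trans ?_
    calc 2 ^ (4 * y) ≤ 2 ^ j := Nat.pow_le_pow_right (by norm_num) (by omega)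
      _ ≤ 2 ^ j * r := Nat.le_mul_of_pos_right _ hr
  have hcard : ∀ g' : ℕ → ℤˣ,
      ((Q₀.powerset.filter (fun S => η * ((2 ^ j * r : ℕ) : ℝ) <
        |∑ m ∈ range (2 ^ j * r), w m * (((g' ((F.eval ((m : ℤ) + 1)).natAbs) *
          flipU S ((F.eval ((m : ℤ) + 1)).natAbs) : ℤˣ) : ℤ) : ℝ)|)).card : ℝ)
        ≤ Real.exp (-(s : ℝ)) * 2 ^ Q₀.card := by
    intro g'
    have h := hM5 F η s Q₀ hη (by omega)
      (fun q hq => ⟨hQ q (hmem q hq).2.1, (hmem q hq).2.2.1,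
        by
          rw [← hd]
          exact hsd.trans (hmem q hq).2.2.2.le⟩) hT4 (2 ^ j * r) hprod
      (fun m => w m * (((g' ((F.eval ((m : ℤ) + 1)).natAbs) : ℤˣ) : ℤ) : ℝ)) (by
        intro m
        rw [abs_mul, unit_abs, mul_one]
        exact hw m) (Classical.decPred _)
    refine le_trans (le_of_eq ?_) h
    congr 1
    apply congrArg
    apply Finset.filter_congr
    intro S _
    have e : ∀ m ∈ range (2 ^ j * r), w m * (((g' ((F.eval ((m : ℤ) + 1)).natAbs) *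
          flipU S ((F.eval ((m : ℤ) + 1)).natAbs) : ℤˣ) : ℤ) : ℝ) =
        w m * (((g' ((F.eval ((m : ℤ) + 1)).natAbs) : ℤˣ) : ℤ) : ℝ) *
          (((flipU S ((F.eval ((m : ℤ) + 1)).natAbs) : ℤˣ) : ℤ) : ℝ) := by
      intro m _
      push_cast
      ring
    rw [Finset.sum_congr rfl e]
  have hmain := hC0 g Q Q₀ (fun q hq => ⟨(hmem q hq).2.1, hQ q (hmem q hq).2.1⟩)
    (fun h => η * ((2 ^ j * r : ℕ) : ℝ) < |∑ m ∈ range (2 ^ j * r), w m *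
      (((h ((F.eval ((m : ℤ) + 1)).natAbs) : ℤˣ) : ℤ) : ℝ)|)
    (hM6b g Q F w (2 ^ j * r) (η * ((2 ^ j * r : ℕ) : ℝ))) (Real.exp (-(s : ℝ)))
    (Real.exp_pos _).le (fun g' => by
      refine le_trans (le_of_eq ?_) (hcard g')
      congr 1)
  refine hmain.trans (ENNReal.ofReal_le_ofReal ?_)
  rw [hs, hL]
  exact exp_bound j (by omega)

/-- one `r` -/
theorem K1 (hC0 : StmC0) (hM5 : StmM5) (hM6b : StmM6b) (g : ℕ → ℤˣ) (Q : Set ℕ)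
    (hQ : ∀ q ∈ Q, q.Prime) (F : ℤ[X]) (w : ℕ → ℝ) (hw : ∀ m, |w m| ≤ 1)
    (hT : Thick {q | q ∈ Q ∧ SimpleRoot F q}) (η : ℝ) (hη : 0 < η) (r : ℕ) (hr : 1 ≤ r) :
    ∀ᵐ ω ∂coins, ∀ᶠ j : ℕ in atTop, |∑ m ∈ range (2 ^ j * r), w m *
        (((modif g Q ω ((F.eval ((m : ℤ) + 1)).natAbs) : ℤˣ) : ℤ) : ℝ)| ≤
        η * ((2 ^ j * r : ℕ) : ℝ) := by
  obtain ⟨j₀, hj₀, h⟩ := K0 hC0 hM5 hM6b g Q hQ F w hw hT η hη
  set s : ℕ → Set (ℕ → Bool) := fun i => {ω | η * ((2 ^ (i + j₀) * r : ℕ) : ℝ) <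
    |∑ m ∈ range (2 ^ (i + j₀) * r), w m *
      (((modif g Q ω ((F.eval ((m : ℤ) + 1)).natAbs) : ℤˣ) : ℤ) : ℝ)|} with hs
  have h1 : ∀ i, coins (s i) ≤ ENNReal.ofReal (1 / ((i + j₀ : ℕ) : ℝ) ^ 2) := by
    intro i
    exact h (i + j₀) (by omega) r hr
  have hsum : Summable (fun i : ℕ => 1 / ((i + j₀ : ℕ) : ℝ) ^ 2) :=
    (summable_nat_add_iff (f := fun n : ℕ => 1 / (n : ℝ) ^ 2) j₀).2
      (Real.summable_one_div_nat_pow.2 one_lt_two)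
  have h2 : ∑' i, coins (s i) ≠ ∞ := by
    apply ne_top_of_le_ne_top hsum.tsum_ofReal_ne_top
    exact ENNReal.tsum_le_tsum h1
  filter_upwards [ae_eventually_notMem h2] with ω hω
  obtain ⟨N, hN⟩ := eventually_atTop.1 hω
  apply eventually_atTop.2
  refine ⟨N + j₀, ?_⟩
  intro j hj
  have h3 := hN (j - j₀) (by omega)
  rw [hs] at h3
  have e : j - j₀ + j₀ = j := by omega
  have h4 : ¬ (η * ((2 ^ (j - j₀ + j₀) * r : ℕ) : ℝ) <
    |∑ m ∈ range (2 ^ (j - j₀ + j₀) * r), w m *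
      (((modif g Q ω ((F.eval ((m : ℤ) + 1)).natAbs) : ℤˣ) : ℤ) : ℝ)|) := h3
  rw [e] at h4
  exact not_lt.1 h4

theorem tM6 (hC0 : StmC0) (hM5 : StmM5) (hM6a : StmM6a) (hM6b : StmM6b) : StmM6 := by
  intro g Q hQ F w hw hT
  have h1 : ∀ᵐ ω ∂coins, ∀ (i r : ℕ), 1 ≤ r → ∀ᶠ j : ℕ in atTop,
      |∑ m ∈ range (2 ^ j * r), w m *
        (((modif g Q ω ((F.eval ((m : ℤ) + 1)).natAbs) : ℤˣ) : ℤ) : ℝ)| ≤
        (1 / ((i : ℝ) + 1)) * ((2 ^ j * r : ℕ) : ℝ) := by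
    rw [ae_all_iff]
    intro i
    rw [ae_all_iff]
    intro r
    by_cases hr : 1 ≤ r
    · filter_upwards [K1 hC0 hM5 hM6b g Q hQ F w hw hT (1 / ((i : ℝ) + 1)) (by positivity) r hr]
        with ω hω _
      exact hω
    · exact Filter.Eventually.of_forall (fun ω h => absurd h hr)
  filter_upwards [h1] with ω hω
  apply hM6a (fun m => w m * (((modif g Q ω ((F.eval ((m : ℤ) + 1)).natAbs) : ℤˣ) : ℤ) : ℝ))
  · intro m
    rw [abs_mul, unit_abs, mul_one]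
    exact hw m
  · intro η hη B hB
    obtain ⟨i, hi⟩ := exists_nat_one_div_lt hη
    have h2 : ∀ r ∈ Finset.Ico B (2 * B), ∀ᶠ j : ℕ in atTop,
        |∑ m ∈ range (2 ^ j * r), w m *
        (((modif g Q ω ((F.eval ((m : ℤ) + 1)).natAbs) : ℤˣ) : ℤ) : ℝ)| ≤
        η * ((2 ^ j * r : ℕ) : ℝ) := by
      intro r hr
      rw [Finset.mem_Ico] at hr
      filter_upwards [hω i r (by omega)] with j hj
      refine hj.trans ?_
      apply mul_le_mul_of_nonneg_right hi.le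
      positivity
    have h3 := (Filter.eventually_all_finset (Finset.Ico B (2 * B))).2 h2
    filter_upwards [h3] with j hj r hr1 hr2
    exact hj r (Finset.mem_Ico.2 ⟨hr1, hr2⟩)

end Pool.Agent.W337.LQ
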